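import Pool.Agent.L7h48.RT.Stm

set_option autoImplicit false

/-! Project RT, part CON: concentration of the largest rainbow tree. -/

namespace Pool.Agent.L7h52.RT
open Pool.Agent.L7h48.RT
open scoped Classical

section E
variable {ι S : Type} [Fintype ι] [DecidableEq ι] [Fintype S] {w : S → ℝ}

theorem E_mono (hw : ∀ s, 0 ≤ w s) {f g : (ι → S) → ℝ} (h : ∀ x, f x ≤ g x) : E w f ≤ E w g :=
  Finset.sum_le_sum fun x _ => mul_le_mul_of_nonneg_left (h x) (Finset.prod_nonneg fun _ _ => hw _)

theorem E_add (f g : (ι → S) → ℝ) : E w (fun x => f x + g x) = E w f + E w g := by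
  unfold E
  rw [← Finset.sum_add_distrib]
  exact Finset.sum_congr rfl fun x _ => mul_add _ _ _

theorem E_mul (a : ℝ) (f : (ι → S) → ℝ) : E w (fun x => a * f x) = a * E w f := by
  unfold E
  rw [Finset.mul_sum]
  exact Finset.sum_congr rfl fun x _ => by ring

theorem E_const (hs : ∑ s, w s = 1) (a : ℝ) : E w (fun _ : ι → S => a) = a := by
  unfold E
  rw [← Finset.sum_mul]
  have h1 : ∑ x : ι → S, ∏ e, w (x e) = 1 := by
    have h := Finset.prod_univ_sum (fun _ : ι => (Finset.univ : Finset S)) (fun _ s => w s)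
    rw [Fintype.piFinset_univ] at h
    rw [← h, hs]
    simp
  rw [h1, one_mul]

end E

theorem w1_nonneg {c : ℕ} {p : ℝ} (hp : 0 ≤ p) (hp1 : p ≤ 1) (s : Option (Fin c)) : 0 ≤ w1 c p s := by
  unfold w1
  split_ifs
  · linarith
  · positivity

theorem w1_sum {c : ℕ} (hc : 0 < c) (p : ℝ) : ∑ s, w1 c p s = 1 := by
  have hc' : (c : ℝ) ≠ 0 := by positivity
  rw [Fintype.sum_option]
  unfold w1
  simp only [if_true, reduceCtorEq, if_false, Finset.sum_const, Finset.card_univ, Fintype.card_fin,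
    nsmul_eq_mul]
  field_simp
  ring

theorem ind_le {A B : Prop} (h : A → B) : ind A ≤ ind B := by
  unfold ind
  by_cases hA : A
  · rw [if_pos hA, if_pos (h hA)]
  · rw [if_neg hA]
    split_ifs <;> norm_num

theorem ind_nonneg (A : Prop) : 0 ≤ ind A := by
  unfold ind
  split_ifs <;> norm_num

theorem ind_pos {A : Prop} (h : A) : ind A = 1 := if_pos h

theorem card_le (n : ℕ) : (Fintype.card (Pr n) : ℝ) ≤ (n : ℝ) ^ 2 := by
  have h := Sym2.card_subtype_not_diag (α := Fin n)
  rw [Fintype.card_fin] at h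
  have h2 : Fintype.card (Pr n) = n.choose 2 := by
    rw [← h]
  rw [h2, Nat.choose_two_right]
  have h3 : n * (n - 1) / 2 ≤ n ^ 2 := by
    refine (Nat.div_le_self _ _).trans ?_
    rw [pow_two]
    exact Nat.mul_le_mul_left _ (Nat.sub_le _ _)
  exact_mod_cast h3

theorem s_CON (h1 : S_EFR) (h2 : S_FLP) (h3 : S_FMN) (h4 : S_PRU) (h5 : S_TTR) (h6 : S_MRG) :
    S_CON := by
  intro n c k l η p q hn hc hk hl hη hp hp1 hq hq1 hlk hF hv hS
  have hmrg := fun f : Col n c → ℝ => h6 n c p q f hc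
  obtain ⟨p', hp'⟩ : ∃ p', p' = p + (1 - p) * q := ⟨_, rfl⟩
  rw [← hp'] at hF hv ⊢
  simp only [← hp'] at hmrg
  have hpp' : p ≤ p' := by
    rw [hp']
    nlinarith [mul_nonneg (sub_nonneg.2 hp1) hq]
  have hp'1 : p' ≤ 1 := by
    rw [hp']
    nlinarith [mul_nonneg (sub_nonneg.2 hp1) (sub_nonneg.2 hq1)]
  have hp'0 : 0 ≤ p' := hp.trans hpp'
  have hnr : (0 : ℝ) < n := by exact_mod_cast hn
  have hηn : 0 < η * n := mul_pos hη hnr
  have efr : ∀ r : ℝ, 0 ≤ r → r ≤ p' → E (w1 c r) (fun x : Col n c =>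
      ind (η * n ≤ |F k l x - E (w1 c r) (F k l : Col n c → ℝ)|)) ≤ η := by
    intro r hr hr'
    have a1 := h1 (Pr n) (Option (Fin c)) (w1 c r) none (fun s => w1_nonneg hr (hr'.trans hp'1) s)
      (w1_sum hc r) (F k l : Col n c → ℝ) l (η * n) (by linarith) hηn
      (fun x e s => h2 n c k l x e s hk (by linarith))
    refine a1.trans (le_trans ?_ hv)
    have a2 : 1 - w1 c r none = r := by
      unfold w1
      rw [if_pos rfl]
      ring
    rw [a2]
    have a3 := card_le n
    have a4 : (Fintype.card (Pr n) : ℝ) * r ≤ (n : ℝ) ^ 2 * p' :=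
      mul_le_mul a3 hr' hr (by positivity)
    exact div_le_div_of_nonneg_right (mul_le_mul_of_nonneg_right a4 (by positivity)) (by positivity)
  obtain ⟨M, hM⟩ : ∃ M, M = E (w1 c p) (F k l : Col n c → ℝ) := ⟨_, rfl⟩
  have wn' := fun s => w1_nonneg (c := c) hp'0 hp'1 s
  have b1 : E (w1 c p') (fun x : Col n c => ind (M + 3 * (η * n) < (T x : ℝ))) ≤ η := by
    refine (E_mono wn' fun x => ind_le fun hx => ?_).trans (efr p' hp'0 le_rfl)
    have g1 := h4 n c k l x hk hl
    rw [← hM] at hF
    refine le_trans ?_ (le_abs_self _)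
    linarith
  have b2 : E (w1 c p') (fun x : Col n c => ind ((T x : ℝ) < M - 3 * (η * n))) ≤ 2 * η := by
    rw [hmrg]
    have g1 : ∀ x : Col n c, E (w1 c q) (fun z : Col n c => ind ((T (merge x z) : ℝ) < M - 3 * (η * n))) ≤
        E (w1 c q) (fun z : Col n c => ind ((T (merge x z) : ℝ) < F k l x - 2 * (η * n))) +
          ind (η * n ≤ |F k l x - M|) := by
      intro x
      have g2 : E (w1 c q) (fun z : Col n c => ind ((T (merge x z) : ℝ) < F k l x - 2 * (η * n))) +
          ind (η * n ≤ |F k l x - M|) =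
          E (w1 c q) (fun z : Col n c => ind ((T (merge x z) : ℝ) < F k l x - 2 * (η * n)) +
            ind (η * n ≤ |F k l x - M|)) := by
        rw [E_add, E_const (w1_sum hc q)]
      rw [g2]
      refine E_mono (fun s => w1_nonneg hq hq1 s) fun z => ?_
      by_cases hz : (T (merge x z) : ℝ) < F k l x - 2 * (η * n)
      · rw [ind_pos hz]
        have := ind_nonneg (η * n ≤ |F k l x - M|)
        have h8 : ind ((T (merge x z) : ℝ) < M - 3 * (η * n)) ≤ 1 := by
          unfold ind
          split_ifs <;> norm_num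
        linarith
      · have h9 := ind_nonneg ((T (merge x z) : ℝ) < F k l x - 2 * (η * n))
        refine le_trans (ind_le fun hz' => ?_) (le_add_of_nonneg_left h9)
        rw [not_lt] at hz
        refine le_trans ?_ (neg_abs_le (F k l x - M) |> fun h => (by linarith : -(F k l x - M) ≤ |F k l x - M|))
        linarith
    refine (E_mono (fun s => w1_nonneg hp hp1 s) g1).trans ?_
    rw [E_add]
    have g3 := efr p hp hpp'
    rw [← hM] at g3
    linarith
  have hT : ∀ x : Col n c, (T x : ℝ) ≤ n := fun x => by exact_mod_cast (h5 n c x).1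
  have hB : E (w1 c p') (fun x : Col n c => ind (M + 3 * (η * n) < (T x : ℝ)) +
      ind ((T x : ℝ) < M - 3 * (η * n))) ≤ 3 * η := by
    rw [E_add]
    linarith
  refine (E_mono wn' fun x => ?_).trans hB
  by_cases c1 : M + 3 * (η * n) < (T x : ℝ)
  · rw [ind_pos c1]
    have := ind_nonneg ((T x : ℝ) < M - 3 * (η * n))
    have h8 : ind (9 * η * n < |(T x : ℝ) - E (w1 c p') (fun y : Col n c => (T y : ℝ))|) ≤ 1 := by
      unfold ind
      split_ifs <;> norm_num
    linarith
  by_cases c2 : (T x : ℝ) < M - 3 * (η * n)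
  · rw [ind_pos c2]
    have := ind_nonneg (M + 3 * (η * n) < (T x : ℝ))
    have h8 : ind (9 * η * n < |(T x : ℝ) - E (w1 c p') (fun y : Col n c => (T y : ℝ))|) ≤ 1 := by
      unfold ind
      split_ifs <;> norm_num
    linarith
  have hz : ¬ 9 * η * n < |(T x : ℝ) - E (w1 c p') (fun y : Col n c => (T y : ℝ))| := by
    rw [not_lt] at c1 c2 ⊢
    have key : ∀ y : Col n c, |(T x : ℝ) - T y| ≤ 6 * (η * n) +
        n * (ind (M + 3 * (η * n) < (T y : ℝ)) + ind ((T y : ℝ) < M - 3 * (η * n))) := by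
      intro y
      have t1 := hT x
      have t2 := hT y
      have t3 : (0 : ℝ) ≤ T x := Nat.cast_nonneg _
      have t4 : (0 : ℝ) ≤ T y := Nat.cast_nonneg _
      have i1 := ind_nonneg (M + 3 * (η * n) < (T y : ℝ))
      have i2 := ind_nonneg ((T y : ℝ) < M - 3 * (η * n))
      by_cases d1 : M + 3 * (η * n) < (T y : ℝ)
      · rw [ind_pos d1]
        have : (n : ℝ) ≤ n * (1 + ind ((T y : ℝ) < M - 3 * (η * n))) := by nlinarith
        rw [abs_le]
        constructor <;> linarith
      by_cases d2 : (T y : ℝ) < M - 3 * (η * n)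
      · rw [ind_pos d2]
        have : (n : ℝ) ≤ n * (ind (M + 3 * (η * n) < (T y : ℝ)) + 1) := by nlinarith
        rw [abs_le]
        constructor <;> linarith
      rw [not_lt] at d1 d2
      have : (0 : ℝ) ≤ n * (ind (M + 3 * (η * n) < (T y : ℝ)) + ind ((T y : ℝ) < M - 3 * (η * n))) :=
        mul_nonneg hnr.le (add_nonneg i1 i2)
      rw [abs_le]
      constructor <;> linarith
    have hE : E (w1 c p') (fun y : Col n c => 6 * (η * n) +
        n * (ind (M + 3 * (η * n) < (T y : ℝ)) + ind ((T y : ℝ) < M - 3 * (η * n)))) ≤ 9 * (η * n) := by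
      rw [E_add, E_const (w1_sum hc p'), E_mul]
      nlinarith
    have u1 : E (w1 c p') (fun y : Col n c => (T y : ℝ)) ≤ (T x : ℝ) + 9 * (η * n) := by
      have v1 : E (w1 c p') (fun y : Col n c => (T y : ℝ)) ≤ E (w1 c p') (fun y : Col n c => (T x : ℝ) +
          (6 * (η * n) +
        n * (ind (M + 3 * (η * n) < (T y : ℝ)) + ind ((T y : ℝ) < M - 3 * (η * n))))) :=
        E_mono wn' fun y => by
          have := (abs_le.1 (key y)).1
          linarith
      rw [E_add (fun _ => (T x : ℝ)), E_const (w1_sum hc p')] at v1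
      linarith
    have u2 : (T x : ℝ) ≤ E (w1 c p') (fun y : Col n c => (T y : ℝ)) + 9 * (η * n) := by
      have v1 : E (w1 c p') (fun _ : Col n c => (T x : ℝ)) ≤ E (w1 c p') (fun y : Col n c => (T y : ℝ) +
          (6 * (η * n) +
        n * (ind (M + 3 * (η * n) < (T y : ℝ)) + ind ((T y : ℝ) < M - 3 * (η * n))))) :=
        E_mono wn' fun y => by
          have := (abs_le.1 (key y)).2
          linarith
      rw [E_add (fun y : Col n c => (T y : ℝ)), E_const (w1_sum hc p')] at v1
      linarith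
    rw [abs_le]
    constructor <;> nlinarith
  have hz' : ind (9 * η * n < |(T x : ℝ) - E (w1 c p') (fun y : Col n c => (T y : ℝ))|) = 0 := by
    unfold ind
    exact if_neg hz
  rw [hz']
  exact add_nonneg (ind_nonneg _) (ind_nonneg _)

end Pool.Agent.L7h52.RT
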